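import Mathlib

open Finset

namespace Pool.Agent.W860.Egz

/-- The 96 sign patterns: exactly two zeros, both among the first three or both among the last
three coordinates. -/
def T : Finset (Fin 6 → SignType) :=
  Finset.univ.filter (fun t =>
    (t 0 ≠ 0 ∧ t 1 = 0 ∧ t 2 = 0 ∧ t 3 ≠ 0 ∧ t 4 ≠ 0 ∧ t 5 ≠ 0) ∨
    (t 0 = 0 ∧ t 1 ≠ 0 ∧ t 2 = 0 ∧ t 3 ≠ 0 ∧ t 4 ≠ 0 ∧ t 5 ≠ 0) ∨
    (t 0 = 0 ∧ t 1 = 0 ∧ t 2 ≠ 0 ∧ t 3 ≠ 0 ∧ t 4 ≠ 0 ∧ t 5 ≠ 0) ∨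
    (t 0 ≠ 0 ∧ t 1 ≠ 0 ∧ t 2 ≠ 0 ∧ t 3 ≠ 0 ∧ t 4 = 0 ∧ t 5 = 0) ∨
    (t 0 ≠ 0 ∧ t 1 ≠ 0 ∧ t 2 ≠ 0 ∧ t 3 = 0 ∧ t 4 ≠ 0 ∧ t 5 = 0) ∨
    (t 0 ≠ 0 ∧ t 1 ≠ 0 ∧ t 2 ≠ 0 ∧ t 3 = 0 ∧ t 4 = 0 ∧ t 5 ≠ 0))

lemma card_T : T.card = 96 := by
  decide +kernel

lemma sgn_cases (a : SignType) : a = 0 ∨ a = 1 ∨ a = -1 := by
  rcases a with _ | _ | _ <;> decide

/-- A function `ZMod p → {0, ±1}` with zero sum modulo the odd number `p` either vanishes an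
odd number of times or is constant without zeros. -/
lemma coord {p : ℕ} [Fact p.Prime] (hp : p ≠ 2) (h : ZMod p → SignType)
    (hsum : ∑ s, ((h s : SignType) : ZMod p) = 0) :
    (#{s | h s = 0} % 2 = 1) ∨ (#{s | h s = 0} = 0 ∧ ∀ s t, h s = h t) := by
  classical
  have hpp : p.Prime := Fact.out
  have hodd : p % 2 = 1 := by
    rcases hpp.eq_two_or_odd with h2 | h2
    · exact absurd h2 hp
    · exact h2
  set z := #{s | h s = 0} with hz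
  set u := #{s | h s = 1} with hu
  set v := #{s | h s = -1} with hv
  have hcard : z + u + v = p := by
    have h1 : (Finset.univ : Finset (ZMod p)).card = p := by
      rw [Finset.card_univ, ZMod.card]
    rw [← h1, hz, hu, hv]
    rw [Finset.card_eq_sum_ones, Finset.card_eq_sum_ones, Finset.card_eq_sum_ones,
      Finset.card_eq_sum_ones, Finset.sum_filter, Finset.sum_filter, Finset.sum_filter,
      ← Finset.sum_add_distrib, ← Finset.sum_add_distrib]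
    apply Finset.sum_congr rfl
    intro s _
    rcases sgn_cases (h s) with h0 | h0 | h0 <;> simp [h0] <;> decide
  have hdiff : ((u : ℤ) - v : ℤ) = ∑ s, ((h s : SignType) : ℤ) := by
    rw [hu, hv, Finset.card_eq_sum_ones, Finset.card_eq_sum_ones, Finset.sum_filter,
      Finset.sum_filter]
    push_cast
    rw [← Finset.sum_sub_distrib]
    apply Finset.sum_congr rfl
    intro s _
    rcases sgn_cases (h s) with h0 | h0 | h0 <;> simp [h0] <;> decide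
  have hdvd : (p : ℤ) ∣ (u : ℤ) - v := by
    rw [← ZMod.intCast_zmod_eq_zero_iff_dvd, hdiff]
    push_cast
    rw [← hsum]
  obtain ⟨k, hk⟩ := hdvd
  have hpos : (0 : ℤ) < p := by exact_mod_cast hpp.pos
  have hcard' : (z : ℤ) + u + v = p := by exact_mod_cast hcard
  have hk1 : k ≤ 1 := by
    by_contra hcon
    have : 2 * (p : ℤ) ≤ p * k := by nlinarith
    omega
  have hk2 : -1 ≤ k := by
    by_contra hcon
    have : (p : ℤ) * k ≤ - 2 * (p : ℤ) := by nlinarith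
    omega
  have hk3 : k = -1 ∨ k = 0 ∨ k = 1 := by omega
  rcases hk3 with rfl | rfl | rfl
  · right
    have hv' : v = p := by omega
    have hz' : z = 0 := by omega
    refine ⟨hz', ?_⟩
    have hall : ∀ s, h s = -1 := by
      intro s
      have : ({s | h s = -1} : Finset (ZMod p)) = Finset.univ := by
        rw [← Finset.card_eq_iff_eq_univ, ← hv, hv', ZMod.card]
      have hs : s ∈ ({s | h s = -1} : Finset (ZMod p)) := by rw [this]; exact Finset.mem_univ s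
      exact (Finset.mem_filter.mp hs).2
    intro s t
    rw [hall s, hall t]
  · left
    omega
  · right
    have hv' : u = p := by omega
    have hz' : z = 0 := by omega
    refine ⟨hz', ?_⟩
    have hall : ∀ s, h s = 1 := by
      intro s
      have : ({s | h s = 1} : Finset (ZMod p)) = Finset.univ := by
        rw [← Finset.card_eq_iff_eq_univ, ← hu, hv', ZMod.card]
      have hs : s ∈ ({s | h s = 1} : Finset (ZMod p)) := by rw [this]; exact Finset.mem_univ s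
      exact (Finset.mem_filter.mp hs).2
    intro s t
    rw [hall s, hall t]

/-- counting identity -/
lemma count_add {ι : Type*} [Fintype ι] (P Q R : ι → Prop) [DecidablePred P] [DecidablePred Q]
    [DecidablePred R] (h : ∀ s, (if P s then 1 else 0) = (if Q s then 1 else 0) + (if R s then 1 else 0 : ℕ)) :
    #{s | P s} = #{s | Q s} + #{s | R s} := by
  rw [Finset.card_eq_sum_ones, Finset.card_eq_sum_ones, Finset.card_eq_sum_ones,
    Finset.sum_filter, Finset.sum_filter, Finset.sum_filter, ← Finset.sum_add_distrib]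
  exact Finset.sum_congr rfl (fun s _ => h s)

/-- A `T`-valued function on `ZMod p` with zero sum is constant. -/
lemma key {p : ℕ} [Fact p.Prime] (hp : p ≠ 2) (h : ZMod p → Fin 6 → SignType)
    (hT : ∀ s, h s ∈ T) (hsum : ∀ i, ∑ s, ((h s i : SignType) : ZMod p) = 0) (s t : ZMod p) :
    h s = h t := by
  classical
  have hpp : p.Prime := Fact.out
  have hodd : p % 2 = 1 := by
    rcases hpp.eq_two_or_odd with h2 | h2
    · exact absurd h2 hp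
    · exact h2
  set a := #{s | h s 1 = 0 ∧ h s 2 = 0} with ha
  set b := #{s | h s 0 = 0 ∧ h s 2 = 0} with hb
  set c := #{s | h s 0 = 0 ∧ h s 1 = 0} with hc
  set d := #{s | h s 4 = 0 ∧ h s 5 = 0} with hd
  set e := #{s | h s 3 = 0 ∧ h s 5 = 0} with he
  set f := #{s | h s 3 = 0 ∧ h s 4 = 0} with hf
  have hT' : ∀ s, (h s 0 ≠ 0 ∧ h s 1 = 0 ∧ h s 2 = 0 ∧ h s 3 ≠ 0 ∧ h s 4 ≠ 0 ∧ h s 5 ≠ 0) ∨
    (h s 0 = 0 ∧ h s 1 ≠ 0 ∧ h s 2 = 0 ∧ h s 3 ≠ 0 ∧ h s 4 ≠ 0 ∧ h s 5 ≠ 0) ∨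
    (h s 0 = 0 ∧ h s 1 = 0 ∧ h s 2 ≠ 0 ∧ h s 3 ≠ 0 ∧ h s 4 ≠ 0 ∧ h s 5 ≠ 0) ∨
    (h s 0 ≠ 0 ∧ h s 1 ≠ 0 ∧ h s 2 ≠ 0 ∧ h s 3 ≠ 0 ∧ h s 4 = 0 ∧ h s 5 = 0) ∨
    (h s 0 ≠ 0 ∧ h s 1 ≠ 0 ∧ h s 2 ≠ 0 ∧ h s 3 = 0 ∧ h s 4 ≠ 0 ∧ h s 5 = 0) ∨
    (h s 0 ≠ 0 ∧ h s 1 ≠ 0 ∧ h s 2 ≠ 0 ∧ h s 3 = 0 ∧ h s 4 = 0 ∧ h s 5 ≠ 0) := by
    intro s
    have := hT s
    rw [T, Finset.mem_filter] at this
    exact this.2
  have z0 : #{s | h s 0 = 0} = b + c := by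
    apply count_add
    intro s
    rcases hT' s with ⟨h0, h1, h2, h3, h4, h5⟩ | ⟨h0, h1, h2, h3, h4, h5⟩ |
      ⟨h0, h1, h2, h3, h4, h5⟩ | ⟨h0, h1, h2, h3, h4, h5⟩ | ⟨h0, h1, h2, h3, h4, h5⟩ |
      ⟨h0, h1, h2, h3, h4, h5⟩ <;> simp [h0, h1, h2]
  have z1 : #{s | h s 1 = 0} = a + c := by
    apply count_add
    intro s
    rcases hT' s with ⟨h0, h1, h2, h3, h4, h5⟩ | ⟨h0, h1, h2, h3, h4, h5⟩ |
      ⟨h0, h1, h2, h3, h4, h5⟩ | ⟨h0, h1, h2, h3, h4, h5⟩ | ⟨h0, h1, h2, h3, h4, h5⟩ |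
      ⟨h0, h1, h2, h3, h4, h5⟩ <;> simp [h0, h1, h2]
  have z2 : #{s | h s 2 = 0} = a + b := by
    apply count_add
    intro s
    rcases hT' s with ⟨h0, h1, h2, h3, h4, h5⟩ | ⟨h0, h1, h2, h3, h4, h5⟩ |
      ⟨h0, h1, h2, h3, h4, h5⟩ | ⟨h0, h1, h2, h3, h4, h5⟩ | ⟨h0, h1, h2, h3, h4, h5⟩ |
      ⟨h0, h1, h2, h3, h4, h5⟩ <;> simp [h0, h1, h2]
  have z3 : #{s | h s 3 = 0} = e + f := by
    apply count_add
    intro s
    rcases hT' s with ⟨h0, h1, h2, h3, h4, h5⟩ | ⟨h0, h1, h2, h3, h4, h5⟩ |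
      ⟨h0, h1, h2, h3, h4, h5⟩ | ⟨h0, h1, h2, h3, h4, h5⟩ | ⟨h0, h1, h2, h3, h4, h5⟩ |
      ⟨h0, h1, h2, h3, h4, h5⟩ <;> simp [h3, h4, h5]
  have z4 : #{s | h s 4 = 0} = d + f := by
    apply count_add
    intro s
    rcases hT' s with ⟨h0, h1, h2, h3, h4, h5⟩ | ⟨h0, h1, h2, h3, h4, h5⟩ |
      ⟨h0, h1, h2, h3, h4, h5⟩ | ⟨h0, h1, h2, h3, h4, h5⟩ | ⟨h0, h1, h2, h3, h4, h5⟩ |
      ⟨h0, h1, h2, h3, h4, h5⟩ <;> simp [h3, h4, h5]
  have z5 : #{s | h s 5 = 0} = d + e := by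
    apply count_add
    intro s
    rcases hT' s with ⟨h0, h1, h2, h3, h4, h5⟩ | ⟨h0, h1, h2, h3, h4, h5⟩ |
      ⟨h0, h1, h2, h3, h4, h5⟩ | ⟨h0, h1, h2, h3, h4, h5⟩ | ⟨h0, h1, h2, h3, h4, h5⟩ |
      ⟨h0, h1, h2, h3, h4, h5⟩ <;> simp [h3, h4, h5]
  have htot : (a + b) + c + ((d + e) + f) = p := by
    have h1 : (Finset.univ : Finset (ZMod p)).card = p := by
      rw [Finset.card_univ, ZMod.card]
    rw [← h1, ha, hb, hc, hd, he, hf]
    simp only [Finset.card_eq_sum_ones, Finset.sum_filter]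
    simp only [← Finset.sum_add_distrib]
    apply Finset.sum_congr rfl
    intro s _
    rcases hT' s with ⟨h0, h1, h2, h3, h4, h5⟩ | ⟨h0, h1, h2, h3, h4, h5⟩ |
      ⟨h0, h1, h2, h3, h4, h5⟩ | ⟨h0, h1, h2, h3, h4, h5⟩ | ⟨h0, h1, h2, h3, h4, h5⟩ |
      ⟨h0, h1, h2, h3, h4, h5⟩ <;> simp [h0, h1, h2, h3, h4, h5]
  have c0 := coord hp (fun s => h s 0) (hsum 0)
  have c1 := coord hp (fun s => h s 1) (hsum 1)
  have c2 := coord hp (fun s => h s 2) (hsum 2)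
  have c3 := coord hp (fun s => h s 3) (hsum 3)
  have c4 := coord hp (fun s => h s 4) (hsum 4)
  have c5 := coord hp (fun s => h s 5) (hsum 5)
  have dich : ∀ i, #{s | h s i = 0} = 0 ∨ #{s | h s i = 0} = p := by
    have e0 : #{s | h s 0 = 0} % 2 = 1 ∨ #{s | h s 0 = 0} = 0 := c0.imp id And.left
    have e1 : #{s | h s 1 = 0} % 2 = 1 ∨ #{s | h s 1 = 0} = 0 := c1.imp id And.left
    have e2 : #{s | h s 2 = 0} % 2 = 1 ∨ #{s | h s 2 = 0} = 0 := c2.imp id And.left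
    have e3 : #{s | h s 3 = 0} % 2 = 1 ∨ #{s | h s 3 = 0} = 0 := c3.imp id And.left
    have e4 : #{s | h s 4 = 0} % 2 = 1 ∨ #{s | h s 4 = 0} = 0 := c4.imp id And.left
    have e5 : #{s | h s 5 = 0} % 2 = 1 ∨ #{s | h s 5 = 0} = 0 := c5.imp id And.left
    rw [z0] at e0
    rw [z1] at e1
    rw [z2] at e2
    rw [z3] at e3
    rw [z4] at e4
    rw [z5] at e5
    intro i
    fin_cases i
    · change #{s | h s 0 = 0} = 0 ∨ #{s | h s 0 = 0} = p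
      rw [z0]
      omega
    · change #{s | h s 1 = 0} = 0 ∨ #{s | h s 1 = 0} = p
      rw [z1]
      omega
    · change #{s | h s 2 = 0} = 0 ∨ #{s | h s 2 = 0} = p
      rw [z2]
      omega
    · change #{s | h s 3 = 0} = 0 ∨ #{s | h s 3 = 0} = p
      rw [z3]
      omega
    · change #{s | h s 4 = 0} = 0 ∨ #{s | h s 4 = 0} = p
      rw [z4]
      omega
    · change #{s | h s 5 = 0} = 0 ∨ #{s | h s 5 = 0} = p
      rw [z5]
      omega
  funext i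
  rcases dich i with h0 | h0
  · rcases coord hp (fun s => h s i) (hsum i) with h1 | h1
    · omega
    · exact h1.2 s t
  · have hall : ∀ s, h s i = 0 := by
      intro s
      have : ({s | h s i = 0} : Finset (ZMod p)) = Finset.univ := by
        rw [← Finset.card_eq_iff_eq_univ, h0, ZMod.card]
      have hs : s ∈ ({s | h s i = 0} : Finset (ZMod p)) := by rw [this]; exact Finset.mem_univ s
      exact (Finset.mem_filter.mp hs).2
    rw [hall s, hall t]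

end Pool.Agent.W860.Egz
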