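import Mathlib
import Pool.Agent.H289R2.NormLayer
import Pool.Agent.W860.Egz

open Finset Polynomial

namespace Pool.Agent.W860.LineFree

open Pool.Agent.W860.Egz

variable {p : ℕ} [hpf : Fact p.Prime]

/-- cast of a sign vector. -/
def cv (p : ℕ) (t : Fin 6 → SignType) : Fin 6 → ZMod p := fun i => ((t i : SignType) : ZMod p)

lemma cast_inj (hp : p ≠ 2) {a b : SignType} (h : ((a : SignType) : ZMod p) = (b : ZMod p)) :
    a = b := by
  have hpp : p.Prime := Fact.out
  have h2 : (2 : ZMod p) ≠ 0 := by
    intro h2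
    have : ((2 : ℕ) : ZMod p) = 0 := by exact_mod_cast h2
    rw [ZMod.natCast_eq_zero_iff] at this
    exact hp ((Nat.prime_dvd_prime_iff_eq hpp Nat.prime_two).mp this)
  have h1 : (1 : ZMod p) ≠ -1 := by
    intro h1
    apply h2
    have : (1 : ZMod p) + 1 = 0 := by
      nth_rewrite 1 [h1]
      ring
    rw [← this]
    norm_num
  rcases sgn_cases a with rfl | rfl | rfl <;> rcases sgn_cases b with rfl | rfl | rfl <;>
    simp at h <;> first | rfl | (exact absurd h h1) | (exact absurd h.symm h1)

lemma cv_inj (hp : p ≠ 2) : Function.Injective (cv p) := by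
  intro s t h
  funext i
  exact cast_inj hp (congrFun h i)

/-- Power sums: a polynomial of degree `< p - 1` has zero sum over `ZMod p`. -/
lemma sum_eval (g : (ZMod p)[X]) (hg : g.natDegree < p - 1) : ∑ s : ZMod p, g.eval s = 0 := by
  simp only [eval_eq_sum_range]
  rw [Finset.sum_comm]
  apply Finset.sum_eq_zero
  intro i hi
  rw [← Finset.mul_sum, FiniteField.sum_pow_lt_card_sub_one, mul_zero]
  rw [ZMod.card]
  rw [Finset.mem_range] at hi
  omega

/-- The block set. -/
lemma exists_blocks (hp : p ≠ 2) : ∃ D : ℕ, 2 * D = (p - 2) * (p - 1) ∧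
    ∃ A : Finset (Fin 6 × Fin D → ZMod p), 96 * p ^ (6 * D) ≤ A.card * p ^ 6 ∧
    ∀ x y : Fin 6 × Fin D → ZMod p, (∀ s : ZMod p, x + s • y ∈ A) → y = 0 := by
  classical
  have hpp : p.Prime := Fact.out
  have hp3 : 3 ≤ p := by
    have := hpp.two_le
    omega
  obtain ⟨D, hD, F, hF⟩ := Pool.Agent.H289R2.NormLayer.layer (ZMod p) (p - 2)
  have hp21 : p - 2 + 1 = p - 1 := by omega
  rw [hp21] at hD
  refine ⟨D, hD, ?_⟩
  -- the map
  let G : (Fin 6 × Fin D → ZMod p) → (Fin 6 → ZMod p) := fun x i => F (fun j => x (i, j))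
  let S : Finset (Fin 6 → ZMod p) := T.image (cv p)
  have hS : S.card = 96 := by
    rw [Finset.card_image_of_injective _ (cv_inj hp), card_T]
  let A : (Fin 6 → ZMod p) → Finset (Fin 6 × Fin D → ZMod p) := fun c =>
    Finset.univ.filter (fun x => G x + c ∈ S)
  have htot : ∑ c : Fin 6 → ZMod p, (A c).card = 96 * p ^ (6 * D) := by
    have h1 : ∀ c, (A c).card = ∑ x : Fin 6 × Fin D → ZMod p, if G x + c ∈ S then 1 else 0 := by
      intro c
      rw [Finset.card_eq_sum_ones, Finset.sum_filter]
    simp only [h1]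
    rw [Finset.sum_comm]
    have h2 : ∀ x : Fin 6 × Fin D → ZMod p,
        (∑ c : Fin 6 → ZMod p, if G x + c ∈ S then 1 else 0) = 96 := by
      intro x
      rw [← hS, ← Finset.sum_filter, ← Finset.card_eq_sum_ones]
      apply Finset.card_bij (fun c _ => G x + c)
      · intro c hc
        exact (Finset.mem_filter.mp hc).2
      · intro c _ c' _ h
        exact add_left_cancel h
      · intro s hs
        refine ⟨s - G x, ?_, ?_⟩
        · rw [Finset.mem_filter]
          refine ⟨Finset.mem_univ _, ?_⟩
          rw [add_sub_cancel]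
          exact hs
        · rw [add_sub_cancel]
    rw [Finset.sum_congr rfl (fun x _ => h2 x), Finset.sum_const, Finset.card_univ]
    simp [ZMod.card, mul_comm]
  obtain ⟨c, hc⟩ : ∃ c, 96 * p ^ (6 * D) ≤ (A c).card * p ^ 6 := by
    by_contra hcon
    push Not at hcon
    have hlt : ∑ c : Fin 6 → ZMod p, (A c).card * p ^ 6 <
        ∑ c : Fin 6 → ZMod p, 96 * p ^ (6 * D) :=
      Finset.sum_lt_sum_of_nonempty Finset.univ_nonempty (fun c _ => hcon c)
    rw [← Finset.sum_mul, htot, Finset.sum_const, Finset.card_univ] at hlt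
    simp [ZMod.card] at hlt
    rw [mul_comm] at hlt
    exact lt_irrefl _ hlt
  refine ⟨A c, hc, ?_⟩
  intro x y hxy
  by_contra hy
  -- polynomials on the blocks
  have hpoly : ∀ i : Fin 6, ∃ g : (ZMod p)[X], g.natDegree ≤ p - 2 ∧
      ((fun j => y (i, j)) ≠ (0 : Fin D → ZMod p) → 1 ≤ g.natDegree) ∧
      ∀ s : ZMod p, G (x + s • y) i = g.eval s := by
    intro i
    by_cases hi : (fun j => y (i, j)) = (0 : Fin D → ZMod p)
    · refine ⟨C (F (fun j => x (i, j))), ?_, ?_, ?_⟩
      · rw [natDegree_C]
        exact Nat.zero_le _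
      · intro h
        exact absurd hi h
      · intro s
        rw [eval_C]
        change F (fun j => (x + s • y) (i, j)) = F (fun j => x (i, j))
        have e : (fun j => (x + s • y) (i, j)) = fun j => x (i, j) := by
          funext j
          have h0 : y (i, j) = 0 := congrFun hi j
          rw [Pi.add_apply, Pi.smul_apply, h0, smul_zero, add_zero]
        rw [e]
    · obtain ⟨g, hg1, hg2, hg3⟩ := hF (fun j => x (i, j)) (fun j => y (i, j)) hi
      refine ⟨g, hg2, fun _ => hg1, ?_⟩
      intro s
      rw [← hg3 s]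
      rfl
  choose g hg1 hg2 hg3 using hpoly
  -- the sign vectors
  have hmem : ∀ s : ZMod p, ∃ t ∈ T, cv p t = G (x + s • y) + c := by
    intro s
    have := hxy s
    rw [Finset.mem_filter] at this
    exact Finset.mem_image.mp this.2
  choose h hT hh using hmem
  have hval : ∀ s i, ((h s i : SignType) : ZMod p) = (g i).eval s + c i := by
    intro s i
    have := congrFun (hh s) i
    rw [Pi.add_apply, hg3 i s] at this
    exact this
  have hsum : ∀ i, ∑ s, ((h s i : SignType) : ZMod p) = 0 := by
    intro i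
    simp only [hval]
    rw [Finset.sum_add_distrib, sum_eval (g i) (by have := hg1 i; omega), Finset.sum_const,
      Finset.card_univ, ZMod.card]
    simp
  have hconst := key hp h hT hsum
  obtain ⟨i, hi⟩ : ∃ i : Fin 6, (fun j => y (i, j)) ≠ (0 : Fin D → ZMod p) := by
    by_contra hcon
    push Not at hcon
    apply hy
    funext ij
    obtain ⟨i, j⟩ := ij
    exact congrFun (hcon i) j
  have hdeg := hg2 i hi
  have hz : g i - C ((g i).eval 0) = 0 := by
    apply Polynomial.eq_zero_of_natDegree_lt_card_of_eval_eq_zero' _ (Finset.univ : Finset (ZMod p))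
    · intro s _
      rw [eval_sub, eval_C]
      have e1 := hval s i
      have e2 := hval 0 i
      rw [hconst s 0, e2] at e1
      rw [sub_eq_zero]
      exact (add_right_cancel e1).symm
    · rw [natDegree_sub_C, Finset.card_univ, ZMod.card]
      have := hg1 i
      omega
  rw [sub_eq_zero] at hz
  rw [hz, natDegree_C] at hdeg
  omega

end Pool.Agent.W860.LineFree
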